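import Pool.Agent.Lib.MP_023cc8_an.Dim

/-!
Every compact planar set that contains, for every point `x` of the unit square, the boundary of some
square centred at `x` (of any orientation and side length) has lower box dimension at least `7/4`
and packing dimension at least `7/4`.
-/

namespace Pool.Agent.Results.MP_023cc8_an.RotatedSquares

open Pool.Agent.MP023cc8

/-- Let `K` be a compact set in the plane which for every `x ∈ [0,1]²` contains a square boundary
centred at `x`, whose orientation and side length may depend on `x`. Then the lower box dimension
and the packing dimension of `K` are at least `7/4`. -/
theorem result (K : Set Plane) (hK : IsCompact K) (h : Admissible K) :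
    ((7 / 4 : ℝ) : EReal) ≤ lowerBoxDim K ∧ ((7 / 4 : ℝ) : EReal) ≤ packingDim K :=
  main hK h

end Pool.Agent.Results.MP_023cc8_an.RotatedSquares
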